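import Pool.Agent.Lib.MP_b1a3a4_al.MVS.HO.Iface

/-!
# Project MVS, part II: module CAYFILL (10.35)
-/

set_option autoImplicit false

namespace Pool.Agent.Lib.MP_b1a3a4_al.MVS.HO.H82

section
variable {G : Type} [Group G] {r : ℕ} (φ : FreeGroup (Fin r) →* G) (R : Set (FreeGroup (Fin r)))

theorem wval_append (u v : List (Fin r × Bool)) : wval φ (u ++ v) = wval φ u * wval φ v := by
  unfold wval
  rw [← FreeGroup.mul_mk, map_mul]

theorem wval_nil : wval φ [] = 1 := by
  unfold wval
  rw [← FreeGroup.one_eq_mk, map_one]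

theorem wval_cons (x : Fin r × Bool) (v : List (Fin r × Bool)) :
    wval φ (x :: v) = wval φ [x] * wval φ v := wval_append φ [x] v

theorem lhol_append {H : Type} [Group H] (c : G → Fin r × Bool → H) (g : G)
    (u v : List (Fin r × Bool)) :
    lhol φ c g (u ++ v) = lhol φ c g u * lhol φ c (g * wval φ u) v := by
  induction u generalizing g with
  | nil => simp [lhol, wval_nil]
  | cons x u ih =>
    rw [List.cons_append]
    show c g x * lhol φ c (g * wval φ [x]) (u ++ v) = (c g x * lhol φ c (g * wval φ [x]) u) *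
      lhol φ c (g * wval φ (x :: u)) v
    rw [ih, wval_cons φ x u, ← mul_assoc, ← mul_assoc]

theorem wval_cancel (x : Fin r × Bool) : wval φ [x] * wval φ [(x.1, !x.2)] = 1 := by
  rw [← wval_append]
  unfold wval
  have h : FreeGroup.mk ([x] ++ [(x.1, !x.2)]) = 1 := by
    rw [FreeGroup.one_eq_mk]
    exact Quot.sound (FreeGroup.Red.Step.not (L₁ := []) (L₂ := []) (x := x.1) (b := x.2))
  rw [h, map_one]

/-- the two words have the same holonomy in a finite region -/
def FillEq (w w' : List (Fin r × Bool)) : Prop :=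
  ∃ F : Set G, F.Finite ∧ ∀ (Z : Set G) (v : G), (∀ f ∈ F, v * f ∈ Z) →
    ∀ (H : Type) [Group H] (c : G → Fin r × Bool → H),
    (∀ v x, v ∈ Z → v * wval φ [x] ∈ Z → c v x * c (v * wval φ [x]) (x.1, !x.2) = 1) →
    (∀ v, ∀ ρ ∈ R, PathIn φ Z v ρ.toWord → lhol φ c v ρ.toWord = 1) →
      lhol φ c v w = lhol φ c v w'

variable {φ R}

theorem FillEq.refl (w : List (Fin r × Bool)) : FillEq φ R w w :=
  ⟨∅, Set.finite_empty, fun _ _ _ _ _ _ _ _ => rfl⟩

theorem FillEq.symm {w w' : List (Fin r × Bool)} (h : FillEq φ R w w') : FillEq φ R w' w := by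
  obtain ⟨F, hF, h⟩ := h
  exact ⟨F, hF, fun Z v hZ H _ c h1 h2 => (h Z v hZ H c h1 h2).symm⟩

theorem FillEq.trans {w w' w'' : List (Fin r × Bool)} (h : FillEq φ R w w')
    (h' : FillEq φ R w' w'') : FillEq φ R w w'' := by
  obtain ⟨F, hF, h⟩ := h
  obtain ⟨F', hF', h'⟩ := h'
  refine ⟨F ∪ F', hF.union hF', fun Z v hZ H _ c h1 h2 => ?_⟩
  exact (h Z v (fun f hf => hZ f (Or.inl hf)) H c h1 h2).trans
    (h' Z v (fun f hf => hZ f (Or.inr hf)) H c h1 h2)

theorem FillEq.append_left {w w' : List (Fin r × Bool)} (u : List (Fin r × Bool))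
    (h : FillEq φ R w w') : FillEq φ R (u ++ w) (u ++ w') := by
  obtain ⟨F, hF, h⟩ := h
  refine ⟨(fun f => wval φ u * f) '' F, hF.image _, fun Z v hZ H _ c h1 h2 => ?_⟩
  rw [lhol_append, lhol_append, h Z (v * wval φ u) (fun f hf => ?_) H c h1 h2]
  rw [mul_assoc]
  exact hZ _ ⟨f, hf, rfl⟩

theorem FillEq.append_right {w w' : List (Fin r × Bool)} (u : List (Fin r × Bool))
    (hw : wval φ w = wval φ w') (h : FillEq φ R w w') : FillEq φ R (w ++ u) (w' ++ u) := by
  obtain ⟨F, hF, h⟩ := h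
  refine ⟨F, hF, fun Z v hZ H _ c h1 h2 => ?_⟩
  rw [lhol_append, lhol_append, h Z v hZ H c h1 h2, hw]

theorem fill_step {w w' : List (Fin r × Bool)} (h : FreeGroup.Red.Step w w') :
    FillEq φ R w w' := by
  cases h with
  | @not L₁ L₂ x b =>
    refine ⟨{wval φ L₁, wval φ (L₁ ++ [(x, b)])}, by simp, fun Z v hZ H _ c h1 h2 => ?_⟩
    have a1 : v * wval φ L₁ ∈ Z := hZ _ (by simp)
    have a2 : v * wval φ L₁ * wval φ [(x, b)] ∈ Z := by
      rw [mul_assoc, ← wval_append]
      exact hZ _ (by simp)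
    have h3 := h1 _ _ a1 a2
    rw [lhol_append, lhol_append]
    congr 1
    show c (v * wval φ L₁) (x, b) * (c (v * wval φ L₁ * wval φ [(x, b)]) (x, !b) *
      lhol φ c (v * wval φ L₁ * wval φ [(x, b)] * wval φ [(x, !b)]) L₂) = _
    rw [← mul_assoc]
    have h4 : v * wval φ L₁ * wval φ [(x, b)] * wval φ [(x, !b)] = v * wval φ L₁ := by
      have := wval_cancel φ (x, b)
      rw [mul_assoc (v * wval φ L₁)]
      simp only at this
      rw [this, mul_one]
    rw [h4]
    simp only at h3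
    rw [h3, one_mul]

theorem fill_red {w w' : List (Fin r × Bool)} (h : FreeGroup.Red w w') : FillEq φ R w w' := by
  induction h with
  | refl => exact FillEq.refl _
  | tail _ hbc ih => exact ih.trans (fill_step hbc)

theorem fill_mk {w w' : List (Fin r × Bool)} (h : FreeGroup.mk w = FreeGroup.mk w') :
    FillEq φ R w w' := by
  obtain ⟨u, h1, h2⟩ := FreeGroup.Red.exact.1 h
  exact (fill_red h1).trans (fill_red h2).symm

theorem prefix_finite (w : List (Fin r × Bool)) : {u | u <+: w}.Finite := by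
  have : {u | u <+: w} = {u | u ∈ w.inits} := by
    ext u
    exact (List.mem_inits u w).symm
  rw [this]
  exact List.finite_toSet _

theorem fill_rel {ρ : FreeGroup (Fin r)} (h : ρ ∈ R) : FillEq φ R ρ.toWord [] := by
  refine ⟨(fun u => wval φ u) '' {u | u <+: ρ.toWord}, (prefix_finite _).image _,
    fun Z v hZ H _ c h1 h2 => ?_⟩
  rw [h2 v ρ h fun u hu => hZ _ ⟨u, hu, rfl⟩]
  rfl

theorem wval_toWord (g : FreeGroup (Fin r)) : wval φ g.toWord = φ g := by
  unfold wval
  rw [FreeGroup.mk_toWord]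

theorem fill_closure (hR : ∀ ρ ∈ R, φ ρ = 1) {g : FreeGroup (Fin r)}
    (hg : g ∈ Subgroup.normalClosure R) : FillEq φ R g.toWord [] := by
  unfold Subgroup.normalClosure at hg
  induction hg using Subgroup.closure_induction with
  | mem x hx =>
    obtain ⟨ρ, hρ, hc⟩ := Group.mem_conjugatesOfSet_iff.1 hx
    obtain ⟨a, ha⟩ := isConj_iff.1 hc
    have h1 : FillEq φ R x.toWord (a.toWord ++ (ρ.toWord ++ (a⁻¹).toWord)) := by
      refine fill_mk ?_
      rw [FreeGroup.mk_toWord, ← FreeGroup.mul_mk, ← FreeGroup.mul_mk, FreeGroup.mk_toWord,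
        FreeGroup.mk_toWord, FreeGroup.mk_toWord, ← ha, mul_assoc]
    have h2 : FillEq φ R (ρ.toWord ++ (a⁻¹).toWord) ([] ++ (a⁻¹).toWord) := by
      refine FillEq.append_right _ ?_ (fill_rel hρ)
      rw [wval_toWord, wval_nil, hR ρ hρ]
    have h3 : FillEq φ R (a.toWord ++ (a⁻¹).toWord) [] := by
      refine fill_mk ?_
      rw [← FreeGroup.mul_mk, FreeGroup.mk_toWord, FreeGroup.mk_toWord, mul_inv_cancel,
        FreeGroup.one_eq_mk]
    exact (h1.trans (h2.append_left _)).trans h3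
  | one =>
    rw [FreeGroup.toWord_one]
    exact FillEq.refl _
  | mul x y hx hy ihx ihy =>
    have h1 : FillEq φ R (x * y).toWord (x.toWord ++ y.toWord) := by
      refine fill_mk ?_
      rw [← FreeGroup.mul_mk, FreeGroup.mk_toWord, FreeGroup.mk_toWord, FreeGroup.mk_toWord]
    have h2 := ihy.append_left x.toWord
    rw [List.append_nil] at h2
    exact (h1.trans h2).trans ihx
  | inv x hx ih =>
    have h1 : FillEq φ R ((x⁻¹).toWord ++ x.toWord) [] := by
      refine fill_mk ?_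
      rw [← FreeGroup.mul_mk, FreeGroup.mk_toWord, FreeGroup.mk_toWord, inv_mul_cancel,
        FreeGroup.one_eq_mk]
    have h2 := ih.append_left (x⁻¹).toWord
    rw [List.append_nil] at h2
    exact h2.symm.trans h1

end

/-- Module CAYFILL. -/
theorem cayfill : CayFillStatement := by
  intro G _ r φ R hker w hw
  have hR : ∀ ρ ∈ R, φ ρ = 1 := by
    intro ρ hρ
    have : ρ ∈ φ.ker := by
      rw [hker]
      exact Subgroup.subset_normalClosure hρ
    exact this
  have h1 : FreeGroup.mk w ∈ Subgroup.normalClosure R := by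
    rw [← hker]
    exact hw
  have h2 : FillEq φ R w (FreeGroup.mk w).toWord := by
    refine fill_mk ?_
    rw [FreeGroup.mk_toWord]
  obtain ⟨F, hF, h⟩ := h2.trans (fill_closure hR h1)
  exact ⟨F, hF, fun Z v hZ H _ c a b => h Z v hZ H c a b⟩

end Pool.Agent.Lib.MP_b1a3a4_al.MVS.HO.H82
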