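import Pool.Agent.Lib.MP_b1a3a4_al.MVS.HO.H82.CayFill

/-!
# Project MVS, part II: module CONV (10.36)
-/

set_option autoImplicit false

namespace Pool.Agent.Lib.MP_b1a3a4_al.MVS.HO.H82

section
variable {G : Type} [Group G] {r : ℕ} (φ : FreeGroup (Fin r) →* G) (R : Set (FreeGroup (Fin r)))

theorem wval_invRev (w : List (Fin r × Bool)) : wval φ (FreeGroup.invRev w) = (wval φ w)⁻¹ := by
  unfold wval
  rw [← FreeGroup.inv_mk, map_inv]

/-- equality of holonomies of two words with the same value -/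
theorem fill_eq (hC : CayFillStatement) (hker : φ.ker = Subgroup.normalClosure R)
    {a b : List (Fin r × Bool)} (hab : wval φ a = wval φ b) : FillEq φ R a b := by
  have h1 : wval φ (a ++ FreeGroup.invRev b) = 1 := by
    rw [wval_append, wval_invRev, hab, mul_inv_cancel]
  have h2 : wval φ (b ++ FreeGroup.invRev b) = 1 := by
    rw [wval_append, wval_invRev, mul_inv_cancel]
  obtain ⟨F, hF, h⟩ := hC G r φ R hker _ h1
  obtain ⟨F', hF', h'⟩ := hC G r φ R hker _ h2
  refine ⟨F ∪ F', hF.union hF', fun Z v hZ H _ c k1 k2 => ?_⟩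
  have e1 := h Z v (fun f hf => hZ f (Or.inl hf)) H c k1 k2
  have e2 := h' Z v (fun f hf => hZ f (Or.inr hf)) H c k1 k2
  rw [lhol_append] at e1 e2
  rw [hab] at e1
  exact mul_right_cancel (e1.trans e2.symm)

theorem pathIn_append {Z : Set G} {g : G} {u v : List (Fin r × Bool)} (hu : PathIn φ Z g u)
    (hv : PathIn φ Z (g * wval φ u) v) : PathIn φ Z g (u ++ v) := by
  intro p hp
  rcases List.prefix_or_prefix_of_prefix hp (List.prefix_append u v) with h | h
  · exact hu p h
  · obtain ⟨q, rfl⟩ := h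
    rw [wval_append, ← mul_assoc]
    exact hv q ((List.prefix_append_right_inj u).1 hp)

theorem pathIn_cons {Z : Set G} {g : G} {x : Fin r × Bool} {v : List (Fin r × Bool)}
    (h : PathIn φ Z g (x :: v)) : g ∈ Z ∧ PathIn φ Z (g * wval φ [x]) v := by
  constructor
  · have := h [] List.nil_prefix
    rwa [wval_nil, mul_one] at this
  · intro u hu
    have := h (x :: u) (List.cons_prefix_cons.2 ⟨rfl, hu⟩)
    rwa [wval_cons, ← mul_assoc] at this

end

/-- a finite set has bounded depth -/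
theorem depth {G : Type} [Group G] (χ : Chr G) {F : Set G} (hF : F.Finite) :
    ∃ C : ℝ, 0 ≤ C ∧ ∀ f ∈ F, -C ≤ val χ f := by
  obtain ⟨C, hC⟩ := (hF.image (fun f => -val χ f)).bddAbove
  refine ⟨max C 0, le_max_right _ _, fun f hf => ?_⟩
  have h1 := hC ⟨f, hf, rfl⟩
  have h2 := le_max_left C 0
  simp only at h1
  linarith

/-- Module CONV. -/
theorem conv (hS : ScaleStatement) (hH : HalfStatement) (hU : UnivStatement)
    (hC : CayFillStatement) : ConvStatement := by
  intro G _ χ hχ hfp hsig r φ R hsurj hR hker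
  set χ' : Chr G := MonoidHom.toAdditiveLeft χ with hχ'
  have hval : ∀ g, val χ' g = Multiplicative.toAdd (χ g) := fun g => rfl
  have hab : ∀ t : ℝ, above χ t = up (val χ') t := fun t => rfl
  have hR1 : ∀ ρ ∈ R, φ ρ = 1 := by
    intro ρ hρ
    have : ρ ∈ φ.ker := by
      rw [hker]
      exact Subgroup.subset_normalClosure hρ
    exact this
  -- a direction
  have hpos : ∃ b, 0 < val χ' b := by
    have : ∃ g, χ g ≠ 1 := by
      by_contra h
      push Not at h
      exact hχ (MonoidHom.ext h)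
    obtain ⟨g, hg⟩ := this
    have h0 : val χ' g ≠ 0 := fun h => hg (toAdd_eq_zero.1 h)
    rcases lt_or_gt_of_ne h0 with h | h
    · refine ⟨g⁻¹, ?_⟩
      rw [val_inv]
      linarith
    · exact ⟨g, h⟩
  -- the scale
  obtain ⟨E, hBE, hE⟩ := hS G hfp (Set.range fun x : Fin r × Bool => wval φ [x])
    (Set.finite_range _)
  obtain ⟨D₁, hD₁⟩ := hH G χ' E hE hpos hsig
  set D₀ : ℝ := max D₁ 0 with hD₀
  have hHS : HS χ' E D₀ := hD₁.mono (le_max_left _ _)
  have hD₀0 : 0 ≤ D₀ := le_max_right _ _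
  -- words for elements
  choose pre hpre using hsurj
  set ω : G → List (Fin r × Bool) := fun g => (pre g).toWord with hω
  have hωv : ∀ g, wval φ (ω g) = g := fun g => (wval_toWord (pre g)).trans (hpre g)
  -- depth of the words
  obtain ⟨C₁, hC₁0, hC₁⟩ := depth χ' (F := ⋃ e ∈ E, (fun u => wval φ u) '' {u | u <+: ω e})
    (hE.fin.biUnion fun e _ => (prefix_finite _).image _)
  -- the regions
  have hreg : ∀ p : G × G, FillEq φ R (ω p.1 ++ ω p.2) (ω (p.1 * p.2)) := by
    intro p
    refine fill_eq φ R hC hker ?_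
    rw [wval_append, hωv, hωv, hωv]
  have hlet : ∀ x : Fin r × Bool, FillEq φ R [x] (ω (wval φ [x])) := by
    intro x
    refine fill_eq φ R hC hker ?_
    rw [hωv]
  choose F hF hFp using hreg
  choose F' hF' hFp' using hlet
  obtain ⟨C₂, hC₂0, hC₂⟩ := depth χ' (F := (⋃ p ∈ E ×ˢ E, F p) ∪ ⋃ x, F' x)
    (((hE.fin.prod hE.fin).biUnion fun p _ => hF p).union (Set.finite_iUnion hF'))
  refine ⟨C₂ + D₀ + C₁, fun t => ⟨fun g h hg hh => ?_, fun g w hw hp => ?_⟩⟩
  · -- connectivity
    have hg' : (t - D₀) + D₀ ≤ val χ' g := by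
      have : t ≤ val χ' g := hg
      linarith
    have hh' : (t - D₀) + D₀ ≤ val χ' h := by
      have : t ≤ val χ' h := hh
      linarith
    have hconn := hHS.1 (t - D₀) g h hg' hh'
    have hgz : g ∈ up (val χ') (t - D₀) := by
      show t - D₀ ≤ val χ' g
      linarith
    clear hh hh' hg hg'
    induction hconn with
    | refl =>
      refine ⟨[], by rw [wval_nil, mul_one], fun u hu => ?_⟩
      rw [List.prefix_nil.1 hu, wval_nil, mul_one]
      have h1 : t - D₀ ≤ val χ' g := hgz
      show t - (C₂ + D₀ + C₁) ≤ val χ' g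
      linarith
    | @tail a b _ hab ih =>
      obtain ⟨w, hw1, hw2⟩ := ih
      refine ⟨w ++ ω (a⁻¹ * b), ?_, ?_⟩
      · rw [wval_append, ← mul_assoc, hw1, hωv, mul_inv_cancel_left]
      · refine pathIn_append φ hw2 fun u hu => ?_
        rw [hw1]
        have h1 : -C₁ ≤ val χ' (wval φ u) :=
          hC₁ _ (Set.mem_biUnion hab.2.2 ⟨u, hu, rfl⟩)
        have h2 : t - D₀ ≤ val χ' a := hab.1
        show t - (C₂ + D₀ + C₁) ≤ val χ' (a * wval φ u)
        rw [val_mul]
        linarith
  · -- loops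
    set Z : Set G := above χ (t - (C₂ + D₀ + C₁)) with hZ
    obtain ⟨H, _, c, c1, c2, c3⟩ := hU G r φ R Z g hR1
    have hpZ : PathIn φ Z g w := fun u hu => by
      have h1 : t ≤ val χ' (g * wval φ u) := hp u hu
      show t - (C₂ + D₀ + C₁) ≤ val χ' (g * wval φ u)
      linarith
    refine c3 w hw hpZ ?_
    -- the cocycle
    have hin : ∀ v : G, t - (C₂ + D₀ + C₁) + C₂ ≤ val χ' v → ∀ f, -C₂ ≤ val χ' f → v * f ∈ Z := by
      intro v hv f hf
      show t - (C₂ + D₀ + C₁) ≤ val χ' (v * f)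
      rw [val_mul]
      linarith
    set ch : G → G → H := fun v v' => lhol φ c v (ω (v⁻¹ * v')) with hch
    have hcoc : Cocyc E (up (val χ') (t - (C₂ + D₀ + C₁) + C₂)) ch := by
      intro u hu v hv k hk h1 h2 h3
      have h4 := hFp (u⁻¹ * v, v⁻¹ * k) Z u
        (fun f hf => hin u hu f (hC₂ f (Or.inl (Set.mem_biUnion (Set.mk_mem_prod h1 h2) hf))))
        H c c1 c2
      simp only at h4
      rw [lhol_append, hωv, mul_inv_cancel_left] at h4
      have h5 : u⁻¹ * v * (v⁻¹ * k) = u⁻¹ * k := by group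
      rw [h5] at h4
      exact h4
    obtain ⟨f, hf⟩ := hHS.2 _ H ch hcoc
    have hstep : ∀ v : G, ∀ x : Fin r × Bool, t ≤ val χ' v → t ≤ val χ' (v * wval φ [x]) →
        c v x = (f v)⁻¹ * f (v * wval φ [x]) := by
      intro v x hv hvx
      have h1 := hFp' x Z v (fun y hy => hin v (by linarith) y
        (hC₂ y (Or.inr (Set.mem_iUnion.2 ⟨x, hy⟩)))) H c c1 c2
      have h2 : lhol φ c v [x] = c v x := by
        show c v x * 1 = c v x
        rw [mul_one]
      rw [h2] at h1
      have k1 : v ∈ up (val χ') (t - (C₂ + D₀ + C₁) + C₂ + D₀) := by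
        show t - (C₂ + D₀ + C₁) + C₂ + D₀ ≤ val χ' v
        linarith
      have k2 : v * wval φ [x] ∈ up (val χ') (t - (C₂ + D₀ + C₁) + C₂ + D₀) := by
        show t - (C₂ + D₀ + C₁) + C₂ + D₀ ≤ val χ' (v * wval φ [x])
        linarith
      have h3 := hf v k1 (v * wval φ [x]) k2
        (by rw [inv_mul_cancel_left]; exact hBE ⟨x, rfl⟩)
      rw [← h3, h1]
      show _ = lhol φ c v (ω (v⁻¹ * (v * wval φ [x])))
      rw [inv_mul_cancel_left]
    have htel : ∀ (w : List (Fin r × Bool)) (v : G), PathIn φ (above χ t) v w →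
        lhol φ c v w = (f v)⁻¹ * f (v * wval φ w) := by
      intro w
      induction w with
      | nil =>
        intro v _
        rw [wval_nil, mul_one, inv_mul_cancel]
        rfl
      | cons x w ih =>
        intro v hv
        obtain ⟨h1, h2⟩ := pathIn_cons φ hv
        have h3 : v * wval φ [x] ∈ above χ t := by
          have := h2 [] List.nil_prefix
          rwa [wval_nil, mul_one] at this
        show c v x * lhol φ c (v * wval φ [x]) w = _
        rw [hstep v x h1 h3, ih _ h2, wval_cons φ x w, ← mul_assoc v]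
        group
    rw [htel w g hp, hw, mul_one, inv_mul_cancel]

end Pool.Agent.Lib.MP_b1a3a4_al.MVS.HO.H82
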